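import Pool.Agent.V1187.Krall2

set_option autoImplicit false
open Polynomial MeasureTheory

namespace Pool.Agent.Results.MP_dd438b_an.KrallEquation

/-- A polynomial sequence that is orthogonal both for `∫ f g dφ` and for the Sobolev product
`∫ f g dφ + ∫ f' g' dψ + ∫ f'' g'' dη` with `η ≠ 0` consists of eigenfunctions of one fourth order
differential operator with polynomial coefficients `aᵢ` of degree at most `i` and `a₄ ≠ 0`; the
moments of `η` and `ψ` are obtained from those of `φ` through these coefficients. -/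
theorem result (φ ψ η : Measure ℝ) (p : ℕ → ℝ[X])
    (hφ : ∀ k : ℕ, Integrable (fun x : ℝ => x ^ k) φ)
    (hψ : ∀ k : ℕ, Integrable (fun x : ℝ => x ^ k) ψ)
    (hη : ∀ k : ℕ, Integrable (fun x : ℝ => x ^ k) η)
    (hη0 : η ≠ 0)
    (hdeg : ∀ n : ℕ, (p n).degree = ((n : ℕ) : WithBot ℕ))
    (horth : ∀ n m : ℕ, n ≠ m → ∫ x, (p n).eval x * (p m).eval x ∂φ = 0)
    (hnorm : ∀ n : ℕ, ∫ x, (p n).eval x * (p n).eval x ∂φ ≠ 0)
    (hS : ∀ n m : ℕ, n ≠ m →
      (∫ x, (p n).eval x * (p m).eval x ∂φ)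
        + (∫ x, (derivative (p n)).eval x * (derivative (p m)).eval x ∂ψ)
        + (∫ x, (derivative (derivative (p n))).eval x
              * (derivative (derivative (p m))).eval x ∂η) = 0) :
    ∃ (a₁ a₂ a₃ a₄ : ℝ[X]) (lam : ℕ → ℝ),
      a₁.natDegree ≤ 1 ∧ a₂.natDegree ≤ 2 ∧ a₃.natDegree ≤ 3 ∧ a₄.natDegree ≤ 4 ∧ a₄ ≠ 0 ∧
      (∀ n, 0 ≤ lam n) ∧
      (∀ n, a₄ * derivative (derivative (derivative (derivative (p n))))
          + a₃ * derivative (derivative (derivative (p n)))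
          + a₂ * derivative (derivative (p n)) + a₁ * derivative (p n) = C (lam n) * p n) ∧
      (∀ f : ℝ[X], ∫ x, f.eval x ∂η = ∫ x, a₄.eval x * f.eval x ∂φ) ∧
      (∀ f : ℝ[X], - 2 * ∫ x, (derivative f).eval x ∂η = ∫ x, a₃.eval x * f.eval x ∂φ) ∧
      (∀ f : ℝ[X], (∫ x, (derivative (derivative f)).eval x ∂η) - ∫ x, f.eval x ∂ψ
        = ∫ x, a₂.eval x * f.eval x ∂φ) ∧
      (∀ f : ℝ[X], ∫ x, (derivative f).eval x ∂ψ = ∫ x, a₁.eval x * f.eval x ∂φ) :=
  Pool.Agent.V1187.Krall.main φ ψ η p hφ hψ hη hη0 hdeg horth hnorm hS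

end Pool.Agent.Results.MP_dd438b_an.KrallEquation
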